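import Pool.Agent.J6H54.CH.Stm

/-!
# Project CH (helper54, MP_a1853d_al), module CH-08 (helper47): the cut lemma
(adapted from `Pool.Agent.J6H27.CG.M08` of helper27)
-/

set_option autoImplicit false

namespace Pool.Agent.J6H47.CH08

open Finset Pool.Agent.J6H54.CH

variable {Λ : Type} [AddCommGroup Λ] {σ : Λ ≃ₗ[ℤ] Λ} {T : Finset (Λ × ℤ)} {p q : Λ → ℝ}

theorem vis_cons (j : ℤ) (R : ℕ) (s : ℤ) (a : Λ × ℤ) (w : List (Λ × ℤ)) :
    vis j R s (a :: w) = vis j R (s + a.2) w + (if (s - j).natAbs ≤ R then 1 else 0) := by
  rw [vis, vis, card_filter, card_filter, List.length_cons, sum_range_succ' _ (w.length + 1)]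
  simp only [List.take_succ_cons, List.take_zero, ht_cons, ht_nil, add_zero, add_assoc]

theorem len_letter {a : Λ × ℤ} (ha : a ∈ T) : len σ T a ≤ 1 := by
  refine len_le' (w := [a]) ?_ (val_singleton a)
  intro s hs
  rw [List.mem_singleton] at hs
  rwa [hs]

theorem step {R : ℕ} (hT : Gen σ T) (hB : Bd σ T p q R) {a : Λ × ℤ} (ha : a ∈ T) (m : ℤ) :
    len σ T (a.1, m) ≤ 1 + R * (m - a.2).natAbs := by
  have h1 := len_add hT a.1 0 a.2 (m - a.2)
  rw [map_zero, add_zero, add_sub_cancel] at h1
  have h2 : len σ T (a.1, a.2) ≤ 1 := len_letter ha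
  have h3 := len_vert hT hB (m - a.2)
  omega

theorem comp (hT : Gen σ T) (x Y : Λ) (u v e : ℤ) :
    len σ T (x + (σ ^ (-u)) Y, e - u) ≤
      len σ T (x, v - u) + len σ T ((σ ^ (-v)) Y, e - v) := by
  have h1 := len_add hT x ((σ ^ (-v)) Y) (v - u) (e - v)
  have h2 : (σ ^ (v - u)) ((σ ^ (-v)) Y) = (σ ^ (-u)) Y := by
    rw [← pow_add_apply]
    congr 2
    ring
  have h3 : v - u + (e - v) = e - u := by ring
  rwa [h2, h3] at h1

theorem comp0 {R : ℕ} (hT : Gen σ T) (hB : Bd σ T p q R) (Y : Λ) (u v e : ℤ) :
    len σ T ((σ ^ (-u)) Y, e - u) ≤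
      R * (v - u).natAbs + len σ T ((σ ^ (-v)) Y, e - v) := by
  have h1 := comp hT (x := 0) (Y := Y) u v e
  rw [zero_add] at h1
  have h2 := len_vert hT hB (v - u)
  omega

theorem cancel (s : ℤ) (x Y : Λ) :
    (σ ^ (-s)) ((σ ^ s) x + Y) = x + (σ ^ (-s)) Y := by
  rw [map_add, pow_neg_pow]

theorem m08 : S_cut := by
  intro Λ _ σ T p q R hT hB c s w
  induction w generalizing s with
  | nil =>
    intro _
    refine ⟨?_, ?_⟩
    · simp [lowX, highX]
    · simp [lowX, highX, len_zero]
  | cons a w ih =>
    intro hw
    have ha : a ∈ T := hw a (by simp)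
    have hw' : Wd T w := fun t ht => hw t (by simp [ht])
    obtain ⟨h1, h4⟩ := ih (s + a.2) hw'
    have hR := hB.ht_le a ha
    have hval : (σ ^ s) (val σ (a :: w)).1 = (σ ^ s) a.1 + (σ ^ (s + a.2)) (val σ w).1 := by
      rw [val_cons, mul_fst, map_add, pow_add_apply]
    have hf : s + ht (a :: w) = s + a.2 + ht w := by rw [ht_cons]; ring
    set s' : ℤ := s + a.2 with hs'
    set f : ℤ := s' + ht w with hf'
    by_cases hsc : s < c
    · have hl : lowX σ c s (a :: w) = (σ ^ s) a.1 + lowX σ c s' w := by
        rw [lowX, if_pos hsc]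
      have hh : highX σ c s (a :: w) = highX σ c s' w := by
        rw [highX, if_pos hsc, zero_add]
      rw [hl, hh, hval, hf]
      refine ⟨?_, ?_⟩
      · rw [← h1]
        abel
      · rw [min_eq_left hsc.le, max_eq_right hsc.le, cancel]
        have e1 := comp hT a.1 (lowX σ c s' w) s (min s' c) (min f c)
        have e2 := step hT hB ha (min s' c - s)
        have e3 := comp0 hT hB (highX σ c s' w) c (max s' c) (max f c)
        rw [vis_cons, List.length_cons, ← hs']
        rcases le_or_gt s' c with h5 | h5
        · have e4 : (min s' c - s - a.2).natAbs = 0 := by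
            rw [min_eq_left h5]
            omega
          have e5 : (max s' c - c).natAbs = 0 := by
            rw [max_eq_right h5]
            omega
          rw [e4] at e2
          rw [e5] at e3
          have e6 : 2 * R * R * vis c R s' w ≤ 2 * R * R * (vis c R s' w +
            if (s - c).natAbs ≤ R then 1 else 0) := Nat.mul_le_mul_left _ (Nat.le_add_right _ _)
          omega
        · have e4 : (min s' c - s - a.2).natAbs ≤ R := by
            rw [min_eq_right h5.le]
            omega
          have e5 : (max s' c - c).natAbs ≤ R := by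
            rw [max_eq_left h5.le]
            omega
          have e6 : (s - c).natAbs ≤ R := by omega
          rw [if_pos e6]
          have e7 := Nat.mul_le_mul_left R e4
          have e8 := Nat.mul_le_mul_left R e5
          have e9 : 2 * R * R * (vis c R s' w + 1) = 2 * R * R * vis c R s' w + R * R + R * R := by ring
          rw [e9]
          omega
    · have hsc' : c ≤ s := not_lt.1 hsc
      have hl : lowX σ c s (a :: w) = lowX σ c s' w := by
        rw [lowX, if_neg hsc, zero_add]
      have hh : highX σ c s (a :: w) = (σ ^ s) a.1 + highX σ c s' w := by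
        rw [highX, if_neg hsc]
      rw [hl, hh, hval, hf]
      refine ⟨?_, ?_⟩
      · rw [← h1]
        abel
      · rw [min_eq_right hsc', max_eq_left hsc', cancel]
        have e1 := comp hT a.1 (highX σ c s' w) s (max s' c) (max f c)
        have e2 := step hT hB ha (max s' c - s)
        have e3 := comp0 hT hB (lowX σ c s' w) c (min s' c) (min f c)
        rw [vis_cons, List.length_cons, ← hs']
        rcases le_or_gt c s' with h5 | h5
        · have e4 : (max s' c - s - a.2).natAbs = 0 := by
            rw [max_eq_left h5]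
            omega
          have e5 : (min s' c - c).natAbs = 0 := by
            rw [min_eq_right h5]
            omega
          rw [e4] at e2
          rw [e5] at e3
          have e6 : 2 * R * R * vis c R s' w ≤ 2 * R * R * (vis c R s' w +
            if (s - c).natAbs ≤ R then 1 else 0) := Nat.mul_le_mul_left _ (Nat.le_add_right _ _)
          omega
        · have e4 : (max s' c - s - a.2).natAbs ≤ R := by
            rw [max_eq_right h5.le]
            omega
          have e5 : (min s' c - c).natAbs ≤ R := by
            rw [min_eq_left h5.le]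
            omega
          have e6 : (s - c).natAbs ≤ R := by omega
          rw [if_pos e6]
          have e7 := Nat.mul_le_mul_left R e4
          have e8 := Nat.mul_le_mul_left R e5
          have e9 : 2 * R * R * (vis c R s' w + 1) = 2 * R * R * vis c R s' w + R * R + R * R := by ring
          rw [e9]
          omega

end Pool.Agent.J6H47.CH08
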