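import Pool.Agent.J6H54.CH.Stm

/-!
# Project CH (helper54, MP_a1853d_al), module CH-24 (helper47): insertion of a digit
(adapted from `Pool.Agent.J6H80.CG.M21` of helper80)
-/

set_option autoImplicit false

namespace Pool.Agent.J6H47.CH24

open Pool.Agent.J6H54.CH

variable {Λ : Type} [AddCommGroup Λ] {σ : Λ ≃ₗ[ℤ] Λ} {T : Finset (Λ × ℤ)} {p q : Λ → ℝ}

theorem prefix_ht {R : ℕ} (hB : Bd σ T p q R) (i : ℤ) :
    ∀ (w : List (Λ × ℤ)) (s : ℤ), Wd T w → s ≤ i + R → i ≤ s + ht w →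
      ∃ w1 w2, w = w1 ++ w2 ∧ i ≤ s + ht w1 ∧ s + ht w1 ≤ i + R := by
  intro w
  induction w with
  | nil =>
    intro s _ h1 h2
    exact ⟨[], [], rfl, by simpa using h2, by simpa using h1⟩
  | cons t w ih =>
    intro s hw h1 h2
    by_cases h : i ≤ s
    · exact ⟨[], t :: w, rfl, by simpa using h, by simpa using h1⟩
    · push Not at h
      have h3 := hB.ht_le t (hw t (by simp))
      have h4 : s + t.2 ≤ i + R := by omega
      have h5 : i ≤ (s + t.2) + ht w := by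
        rw [ht_cons] at h2
        omega
      obtain ⟨w1, w2, e, h6, h7⟩ := ih (s + t.2) (fun a ha => hw a (by simp [ha])) h4 h5
      refine ⟨t :: w1, w2, by rw [e]; rfl, ?_, ?_⟩ <;> rw [ht_cons] <;> omega

theorem len_kpow {R : ℕ} (hT : Gen σ T) (hB : Bd σ T p q R) (x : Λ) (m : ℤ) :
    len σ T ((σ ^ m) x, 0) ≤ 2 * (R * m.natAbs) + len σ T (x, 0) := by
  have h1 := len_add hT 0 x m 0
  rw [zero_add, add_zero] at h1
  have h2 := len_add hT ((σ ^ m) x) 0 m (-m)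
  rw [map_zero, add_zero, add_neg_cancel] at h2
  have h3 := len_vert hT hB m
  have h4 := len_vert hT hB (-m)
  rw [Int.natAbs_neg] at h4
  omega

theorem m24 : S_insert := by
  intro Λ _ σ T p q R hT hB i H v x hiH
  obtain ⟨w, hw, hval, hlen⟩ := exists_geo hT (v, (H : ℤ))
  have hht : ht w = H := by rw [← val_snd (σ := σ), hval]
  obtain ⟨w1, w2, e, h1, h2⟩ := prefix_ht hB (i : ℤ) w 0 hw (by positivity) (by
    rw [hht]; exact_mod_cast (by omega : (i : ℤ) ≤ 0 + H))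
  rw [zero_add] at h1 h2
  subst e
  have hw1 := hw.left
  have hw2 := hw.right
  obtain ⟨x1, y1, e1⟩ : ∃ x y, val σ w1 = (x, y) := ⟨_, _, rfl⟩
  obtain ⟨x2, y2, e2⟩ : ∃ x y, val σ w2 = (x, y) := ⟨_, _, rfl⟩
  have hy1 : y1 = ht w1 := by rw [← val_snd (σ := σ), e1]
  rw [val_append, e1, e2] at hval
  have hv1 : x1 + (σ ^ y1) x2 = v := congrArg Prod.fst hval
  have hv2 : y1 + y2 = (H : ℤ) := congrArg Prod.snd hval
  have hl1 : len σ T (x1, y1) ≤ w1.length := len_le' hw1 e1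
  have hl2 : len σ T (x2, y2) ≤ w2.length := len_le' hw2 e2
  have ha := len_add hT x1 ((σ ^ ((i : ℤ) - y1)) x) y1 0
  rw [← pow_add_apply, add_zero] at ha
  have he : y1 + ((i : ℤ) - y1) = i := by ring
  rw [he] at ha
  have hb := len_add hT (x1 + (σ ^ (i : ℤ)) x) x2 y1 y2
  have hfst : x1 + (σ ^ (i : ℤ)) x + (σ ^ y1) x2 = v + (σ ^ (i : ℤ)) x := by rw [← hv1]; abel
  rw [hfst, hv2] at hb
  have hc := len_kpow hT hB x ((i : ℤ) - y1)
  have hd : ((i : ℤ) - y1).natAbs ≤ R := by rw [hy1]; omega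
  have hd' : R * ((i : ℤ) - y1).natAbs ≤ R * R := Nat.mul_le_mul_left R hd
  rw [← hlen, List.length_append]
  have hmul : 2 * R * R = 2 * (R * R) := by ring
  omega

end Pool.Agent.J6H47.CH24
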